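import Mathlib
import Pool.Agent.Lib.MP_b8a592_lc.Final

/-!
MP_b8a592_lc, Q1, answered positively: a recursive oracle `A` with `P^A` strictly inside `NL_*^A`.
-/

namespace Pool.Agent.Results.MP_b8a592_lc.StrictInclusion

open Pool.Agent.MP_b8a592_lc

theorem result : ∃ A : Set (List Bool), ComputablePred (fun w => w ∈ A) ∧
    PClass A ⊆ NLClass A ∧ PClass A ≠ NLClass A :=
  ⟨Orc, orc_computable, P_subset_NL, fun h => diag_not_P (h ▸ nprog_mem Orc 0)⟩

end Pool.Agent.Results.MP_b8a592_lc.StrictInclusion
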